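import Mathlib
import Pool.Agent.Run7.h8.IC.Conc

/-!
# The Mumford-Tate conjecture for the second cohomology (and for all degrees) of varieties
dominated by powers of abelian varieties with a Frobenius element in CM fields with isolated
cycles

Problem `MP_2b5912_ag`, question Q1 (the integral Mumford-Tate conjecture for `H^2`). By a theorem of
Cadoret and Moonen (Integral and adelic aspects of the Mumford-Tate conjecture) the Mumford-Tate
conjecture for an abelian variety implies its integral form: the index of the image of the Galois group
in the group of the `ℤ_ℓ`-points of the Mumford-Tate group is bounded independently of `ℓ`. This passes
to `H^2(X)` for the varieties `X` dominated by powers of the abelian variety. So the theorem below,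
which proves the Mumford-Tate conjecture for all tensor powers, gives Q1 for these `X`. This theorem of
helper8 was first handed in for `MP_6369ef_ag.IsolatedCycles` (the Mumford-Tate conjecture for `H^2`).

Let `A` be an abelian variety over a number field (or a finitely generated subfield of the
complex numbers), of any dimension and with arbitrary endomorphisms, which has good reduction at
ONE place `v`, with a residue field of `p ^ a` elements, such that the characteristic polynomial
of the Frobenius element at `v` is the product of the minimal polynomials of Weil numbers `π i`
(`HasFrobenius`) as follows.

The Weil numbers. Let `π i` be Weil numbers for `q = p ^ a` (algebraic integers with `π i * conj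
(π i) = q`) in CM fields `K i`, finitely many. For a CM subfield `T` of `K i` let `unitNorm` be
the norm `N` of `π i` to `T`, normalised to absolute value one: `N ^ 2 / p ^ (a [K i : T])`. The
slopes of the `π i` are arbitrary. There are two assumptions.

* (`Separated`) Different embeddings of CM subfields `T i`, `T i'` of the fields (equal subfields
  if `i = i'`) never map positive powers of these numbers to the same complex number. For one
  Weil number `π` in `K` this is equivalent to `NormsGenerate`: for all CM subfields `T` of `K`,
  all positive powers of the normalised norm to `T` generate the field `T`. This condition is
  necessary: exotic classes (for instance of Weil type) come from norms some powers of which lie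
  in smaller fields.
* (`Cyclic`) For every family of CM subfields `T i` of the `K i`, `i ∈ S ≠ ∅`, some automorphism
  `τ` of `ℂ` has an *isolated cycle* on the complex embeddings of the `T i` (`IsolatedCycle`):
  for one embedding `ψ` the cycle of `ψ` under `τ` has `n > 1` elements, where `n` is any power
  of any prime number (or `n = 2 ^ a r ^ b`, `a > 0`, `r` an odd prime number, and the cycle is
  stable under complex conjugation), and `n` does not divide the length of any other cycle,
  except for that of the complex conjugate of `ψ`. By the theorem of Chebotarev this is a
  condition on the decomposition of prime numbers: some prime number, unramified in the `T i`,
  has exactly one prime ideal, or one pair of complex conjugate prime ideals, in the fields `T i`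
  whose residue degree is divisible by `n`, and this residue degree is `n`. Alternatively the
  family may have one of the properties of the starting files: some prime number divides one of
  the discriminants of the `T i`, but its third power does not divide their product; or some
  automorphism of `ℂ` moves at least one and at most four embeddings; and for norms with only two
  slopes `third power` and `four` may be replaced by `fourth power` and `six`.

An example (second part of the theorem, `HoldsForPrimePower`), in which the condition on the CM
subfields is not a hypothesis any more: `K` is **any** CM field of degree `2 r ^ k`, `r` a prime
number, such that some automorphism of `ℂ` acts on the pairs of complex conjugate embeddings of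
`K` as one cycle (`OneOrbit`; for instance some prime number is inert in the maximal real
subfield of `K`, or is totally ramified there and does not divide the degree). `K` may have many
CM subfields. Then the conclusion is true for every Weil number `π` in `K` with `NormsGenerate`,
and arbitrary slopes. So for abelian varieties of prime power dimension with such a Frobenius
element exotic classes can only be explained by norms to CM subfields. (For `k = 1`, prime
dimension, an automorphism as in `OneOrbit` always exists, and the result is similar to theorems
of Tankeev and Zarhin.)

The conclusion (`MumfordTateFor`). For all prime numbers `ℓ` **all Tate classes in the tensor
powers of `H^1(A)` are linear combinations of Hodge classes, and even of products of Hodge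
classes of degree two** (`MumfordTateStrong`). Let `X` be a variety dominated by a power `A ^ n`:
then `H^2(X)(1)` is a direct summand of a sum of copies of `(H^1(A) ^ {⊗ 2})(1)`, as a Hodge
structure and as a Galois representation, so all Tate classes in the tensor powers of `H^2(X)(1)`
are linear combinations of Hodge classes. Together with the theorem of Deligne (Hodge classes are
Tate classes) and the reductivity of both groups this is the equality of the Mumford-Tate group
(over `ℚ_ℓ`) and of the connected component of the `ℓ`-adic monodromy group of `H^2(X)`; so the Mumford-Tate
conjecture is true for `X`, and Q1 follows by the theorem of Cadoret and Moonen. In the formal statement (`IsRealization`) `W` is `H_1(A,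
ℚ)`, `T` the tangent space at the origin and `per : W → T` the inclusion, `ω₀` is the form given
by a polarization; `V` is the rational Tate module with the comparison map `comp : W → V`, the
action `ρ` of the Galois group and the Weil pairing `ω`; `χ` is the cyclotomic character. The
theorems of Faltings on endomorphisms and on semisimplicity are part of the data. That the
maximality of the angle rank for one Frobenius element implies this conclusion is a theorem of
the starting files (TH170.FT).

The starting files (MP_021685_ag OneFrobenius, MP_0fca13_ag TateRingOfPowers) have the criterion
for families of CM subfields with the alternative properties in `Cyclic`, and with automorphisms
which act on the pairs of conjugate embeddings as one cycle of odd *prime* length and *fix all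
other embeddings*. New is that the length can be any prime power, including powers of two, or `2
^ a r ^ b`, and that the other embeddings can move, as long as the lengths of their cycles are
not divisible by `n`; so the second part of the theorem is new for all `k > 1`. The reduction to
the slopes and the descent to the CM subfields are those of the starting files
(`Pool.Agent.W527`).

The proof. A multiplicative relation between the conjugates of the `π i` gives an odd function
`c` on the embeddings of a family of CM subfields, as small as possible, such that `∑ c (z) w (g
z) = 0` for all automorphisms `g`, where `w` is the function given by the slopes of the norms. We
apply this to `g τ ^ j`, multiply by `ζ ^ (-j)`, where `ζ` is a primitive `n`-th root of unity,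
and sum over `j`. The cycles whose length is not divisible by `n` do not contribute. So for all
automorphisms `h`, `g` the product of `∑ c (h τ ^ i ψ) ζ ^ i` and of `∑ w (g τ ^ j ψ) ζ ^ (-j)`
is zero. If the first sum is zero for all `h`, then the irreducibility of the cyclotomic
polynomial gives `c (h ψ) = c (h τ ^ (n / r) ψ)` for all `h`, so that `c` comes from smaller CM
subfields, a contradiction. If not, then in the same way `w (g ψ) = w (g τ ^ (n / r) ψ)` for all
`g`, which contradicts `Separated`. So the angle rank is maximal: the only multiplicative
relations are those given by `π i * conj (π i) = q`.
-/

set_option autoImplicit false

namespace Pool.Agent.Results.MP_2b5912_ag.IsolatedCycles

open Run7.h370.MR Run7.h8.IC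

/-- **The Mumford-Tate conjecture (for `H^1`, `H^2` and all degrees) for the abelian varieties
with a Frobenius element in CM fields with isolated cycles.** -/
theorem result :
    HoldsForCyclic (fun p _ a _ _ K _ _ _ π => MumfordTateFor p a K π) ∧
    HoldsForPrimePower (fun p _ a _ _ K _ _ _ π => MumfordTateFor p a K π) :=
  ⟨holdsForCyclic mumfordTateFor, primePower_of_cyclic (holdsForCyclic mumfordTateFor)⟩

end Pool.Agent.Results.MP_2b5912_ag.IsolatedCycles
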